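import Pool.Agent.H88.RSE.ThmA

/-!
# Every plane domain, after deletion of a small countable closed set, embeds properly into `ℂ²`
-/

set_option autoImplicit false

namespace Pool.Agent.Results.MP_11b08f_an.CountableDeletion

open Filter Topology Set
open scoped Manifold

/-- Let `Ω` be a domain in `ℂ` and `K ⊆ Ω` compact.  There is a domain `V` with `K ⊆ V ⊆ Ω` such that
`Ω \ V` is countable, the second derived set of `Ω \ V` does not meet `Ω`, and the Riemann surface `V` has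
a proper holomorphic embedding `F` into `ℂ²`. -/
theorem result (Ω : TopologicalSpace.Opens ℂ) (hΩ : IsConnected (Ω : Set ℂ)) (K : Set ℂ)
    (hK : IsCompact K) (hKΩ : K ⊆ (Ω : Set ℂ)) :
    ∃ V : TopologicalSpace.Opens ℂ, V ≤ Ω ∧ K ⊆ (V : Set ℂ) ∧ IsConnected (V : Set ℂ) ∧
      ((Ω : Set ℂ) \ (V : Set ℂ)).Countable ∧
      Disjoint (Ω : Set ℂ) (derivedSet (derivedSet ((Ω : Set ℂ) \ (V : Set ℂ)))) ∧
      ∃ F : V → ℂ × ℂ, MDifferentiable 𝓘(ℂ) 𝓘(ℂ, ℂ × ℂ) F ∧ Function.Injective F ∧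
        (∀ x, Function.Injective (mfderiv 𝓘(ℂ) 𝓘(ℂ, ℂ × ℂ) F x)) ∧ IsProperMap F := by
  obtain ⟨V, A, h1, h2, h3, h4, h5, h6, h7⟩ := Pool.RSE.thmA Ω K hK hKΩ
  refine ⟨V, h1, h2, h6 hΩ, h5, ?_, h7⟩
  rw [Set.disjoint_left]
  intro z hz hzD
  have hsub : ∀ y ∈ Ω, y ∈ derivedSet ((Ω : Set ℂ) \ (V : Set ℂ)) → y ∈ A := by
    intro y hy hyD
    by_contra hyA
    have e1 : ∃ᶠ x in 𝓝[≠] y, x ∈ (Ω : Set ℂ) \ (V : Set ℂ) := accPt_iff_frequently_nhdsNE.1 hyD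
    exact e1 ((h4 y hy hyA).mono fun x hx hc => hc.2 hx)
  have e2 : ∃ᶠ x in 𝓝[≠] z, x ∈ derivedSet ((Ω : Set ℂ) \ (V : Set ℂ)) :=
    accPt_iff_frequently_nhdsNE.1 hzD
  have e3 : ∀ᶠ x in 𝓝[≠] z, x ∈ Ω := mem_nhdsWithin_of_mem_nhds (Ω.isOpen.mem_nhds hz)
  exact e2 (((h3 z hz).and e3).mono fun x hx hc => hx.1 (hsub x hx.2 hc))

end Pool.Agent.Results.MP_11b08f_an.CountableDeletion
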